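import Pool.Agent.Q301.UF.Fb

/-!
# A filterbase infinite set that is not strongly filterbase infinite

If there is a model of ZF, then there is a model of ZF (in particular, of ZFA) with a set that is
filterbase infinite but strongly filterbase finite.

The model is a symmetric extension of a countable model. It has a set `D` and a sequence of
ultrafilters `C n` on `D` (in the model); these are pairwise distinct, so that `D` is filterbase
infinite. Every relation between subsets of `D` and natural numbers is, up to finitely many subsets
of `D`, determined by the values of finitely many of the ultrafilters. This implies that for every
sequence of nonempty families `V n` of subsets of `D` such that the differences of members of `V n`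
are finite there are `m ≠ n`, `A` in `V m` and `B` in `V n` such that `A \ B` is finite.
-/

namespace Pool.Agent.Results.MP_915581_lc.NotStronglyInfinite

open FirstOrder FirstOrder.Language
open Pool.Agent.Helper672.Plain (LSet El Mem)
open Pool.Agent.H635Amen (ZF)
open Pool.Agent.Q301.UF

universe u

theorem result (h : ∃ (M : Type u) (_ : LSet.Structure M), ZF M) :
    ∃ (N : Type u) (_ : LSet.Structure N), ZF N ∧
      ∃ d : N, IsFilterbaseInfinite d ∧ ¬ IsStronglyFilterbaseInfinite d :=
  p915581 h

end Pool.Agent.Results.MP_915581_lc.NotStronglyInfinite
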